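import Pool.Agent.BER.Stmts

set_option autoImplicit false

/-! # Squad BER, row STN: from one order to the next -/

namespace Pool.Agent.BER.H70

open Set Filter Topology MeasureTheory
open scoped InnerProductSpace ENNReal
open Pool.Agent.BE01 Pool.Agent.BEL Pool.Agent.BEF Pool.Agent.BEN Pool.Agent.BEH Pool.Agent.BEG
open Pool.Agent.BER

noncomputable section

/-- **STN**. -/
theorem stn (hLPM : LpmStmt) (hLPD : LpdStmt) (hRSV : RsvStmt) (hPER : PerStmt) : StnStmt := by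
  intro X H _ _ _ _ W p N a0 ω ρ m φ χ U q hp hN hω hF hG hχ hA
  obtain ⟨hU, ⟨q', hq', hlead⟩, hres⟩ := hA
  obtain ⟨mMon, mTau, mTL, mLead, mJ⟩ := hLPM.1 X
  obtain ⟨dD, dAdd, dT, dTL, dTA⟩ := hLPD X X p ω
  -- the leading part
  have hv : (fun ψ _ => (ω ^ 2 * ρ * Real.cos ψ) • χ : ℝ → ℝ → X) ∈ TL X 1 := by
    refine Submodule.subset_span ⟨0, 1, false, (ω ^ 2 * ρ) • χ, odd_one, le_rfl, ?_⟩
    funext ψ L
    show _ = (L ^ 0 * Real.cos (((1 : ℕ) : ℝ) * ψ)) • (ω ^ 2 * ρ) • χ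
    rw [Nat.cast_one, one_mul, pow_zero, one_mul, smul_smul]
    congr 1
    ring
  set Vq : ℝ → ℝ → X := fun ψ _ => (ω ^ 2 * ρ * Real.cos ψ) • χ with hVq
  have hq'0 : q' ∈ LP X 0 1 := mMon 0 1 1 1 (Nat.zero_le _) rfl hq'
  have hv0 : (fun ψ τ L => τ ^ 0 • Vq ψ L) ∈ LP X 0 1 := mTL 1 0 Vq hv
  have hqe : q = fun ψ τ L => τ ^ 0 • Vq ψ L + q' ψ τ L := by
    funext ψ τ L
    rw [hlead ψ τ L, pow_zero, one_smul]
  have hq0 : q ∈ LP X 0 1 := by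
    rw [hqe]
    exact Submodule.add_mem _ hv0 hq'0
  have hUe : U = fun ψ τ L => W.SX (q ψ τ L) := by
    funext ψ τ L
    exact hU ψ τ L
  have hU0 : U ∈ LP X 0 1 := by
    rw [hUe]
    exact (dT W.SX 0 1 q hq0).1
  have hd1 : ∀ ψ L, d1 Vq ψ L = (-(ω ^ 2 * ρ * Real.sin ψ)) • χ := by
    intro ψ L
    have h1 := ((Real.hasDerivAt_cos ψ).const_mul (ω ^ 2 * ρ)).smul_const χ
    show deriv (fun s => (ω ^ 2 * ρ * Real.cos s) • χ) ψ = _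
    rw [h1.deriv]
    congr 1
    ring
  have hB : ∃ B' ∈ LP X 1 1, ∀ ψ τ L, Dt p ω U ψ τ L =
      - (Real.sin ψ • ((ω * ρ) • χ)) + B' ψ τ L := by
    set W0 : ℝ → ℝ → X := fun ψ L => d2 Vq ψ L - (((0 : ℕ) : ℝ) + 1 / (2 * (p : ℝ))) • Vq ψ L
      with hW0
    have hW0m : W0 ∈ TL X 1 :=
      Submodule.sub_mem _ (dTL 1 Vq hv).2.1 (Submodule.smul_mem _ _ hv)
    refine ⟨fun ψ τ L => τ ^ 1 • W.SX (W0 ψ L) + W.SX (Dt p ω q' ψ τ L), ?_, ?_⟩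
    · exact Submodule.add_mem _ (mTL 1 1 _ ((dTL 1 W0 hW0m).2.2.2.1 W.SX).1)
        (dT W.SX 1 1 _ (dD 1 1 q' hq')).1
    · intro ψ τ L
      have e1 : Dt p ω U ψ τ L = W.SX (Dt p ω q ψ τ L) := by
        rw [hUe, (dT W.SX 0 1 q hq0).2]
      have e2 : Dt p ω q ψ τ L = Dt p ω (fun ψ τ L => τ ^ 0 • Vq ψ L) ψ τ L +
          Dt p ω q' ψ τ L := by
        rw [hqe, dAdd 1 _ hv0 q' hq'0]
      have e3 : Dt p ω (fun ψ τ L => τ ^ 0 • Vq ψ L) ψ τ L =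
          τ ^ 0 • (ω • d1 Vq ψ L) + τ ^ (0 + 1) • W0 ψ L := by
        rw [(dTL 1 Vq hv).2.2.2.2 0]
      have e4 : W.SX (ω • d1 Vq ψ L) = - (Real.sin ψ • ((ω * ρ) • χ)) := by
        rw [hd1, smul_smul, map_smul]
        have : (ω * -(ω ^ 2 * ρ * Real.sin ψ)) • W.SX χ =
            (-(Real.sin ψ * (ω * ρ))) • ((ω ^ 2) • W.SX χ) := by
          rw [smul_smul]
          congr 1
          ring
        rw [this, hχ, neg_smul, smul_smul]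
      rw [e1, e2, e3, map_add, map_add, pow_zero, one_smul, e4, map_smul, zero_add, add_assoc]
  obtain ⟨J, Q, hQ, P', hP', hR⟩ := mLead (N + 1) _ hres
  obtain ⟨M, hJM, hgap⟩ := hG J
  obtain ⟨V, hV, qV, hqV, q1, hq1, r1, r2, r3⟩ := hRSV X H W p (a0 * (2 * (p : ℝ) + 1) * ω)
    ((N : ℝ) + 1 / (2 * (p : ℝ))) ω m φ ((ω * ρ) • χ) J M hω hF hJM hgap Q hQ
  have hWf := (dTL (M + 2 * p) q1 hq1).2.2.2.1 W.SX
  have hWf2 := (dTL (M + 2 * p) (d1 q1) (dTL (M + 2 * p) q1 hq1).1).2.2.2.1 W.SX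
  have hWfd : d1 (d1 (fun ψ L => W.SX (q1 ψ L))) = fun ψ L => W.SX (d1 (d1 q1) ψ L) := by
    rw [hWf.2.1, hWf2.2.1]
  have hV' := mJ M (M + 2 * p) (Nat.le_add_right _ _) hV
  have hqV' := mJ M (M + 2 * p) (Nat.le_add_right _ _) hqV
  have key := hPER X p N (M + 2 * p) a0 ω ((ω * ρ) • χ) U q V qV (fun ψ L => W.SX (q1 ψ L)) q1 hp
    (Or.inl hN) hU0 hq0 hB hV' hqV' hWf.1 hq1
  refine ⟨fun ψ τ L => U ψ τ L + τ ^ N • V ψ L + τ ^ (N + 1) • W.SX (q1 ψ L),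
    fun ψ τ L => q ψ τ L + τ ^ N • qV ψ L + τ ^ (N + 1) • q1 ψ L, ⟨?_, ?_, ?_⟩⟩
  · intro ψ τ L
    show U ψ τ L + τ ^ N • V ψ L + τ ^ (N + 1) • W.SX (q1 ψ L) =
      W.SX (q ψ τ L + τ ^ N • qV ψ L + τ ^ (N + 1) • q1 ψ L)
    rw [map_add, map_add, map_smul, map_smul, hU, r1]
  · refine ⟨fun ψ τ L => q' ψ τ L + τ ^ N • qV ψ L + τ ^ (N + 1) • q1 ψ L, ?_, ?_⟩
    · refine Submodule.add_mem _ (Submodule.add_mem _ hq' ?_) ?_
      · exact mMon 1 N 1 1 hN rfl (mTL M N qV hqV)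
      · exact mMon 1 (N + 1) 1 1 (by omega) rfl (mTL (M + 2 * p) (N + 1) q1 hq1)
    · intro ψ τ L
      show q ψ τ L + τ ^ N • qV ψ L + τ ^ (N + 1) • q1 ψ L = _ +
        (q' ψ τ L + τ ^ N • qV ψ L + τ ^ (N + 1) • q1 ψ L)
      rw [hlead ψ τ L]
      abel
  · have hs := Submodule.add_mem _ key hP'
    refine (congrArg (fun Z => Z ∈ LP X (N + 1 + 1) 1) ?_).mp hs
    funext ψ τ L
    have k2 := eq_neg_of_add_eq_zero_left (r3 ψ L)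
    have k1 := r2 ψ L
    have k3 := hR ψ τ L
    rw [Pi.add_apply, Pi.add_apply, Pi.add_apply]
    beta_reduce
    rw [k3, k1, hWfd, smul_zero, sub_zero]
    beta_reduce
    rw [k2, smul_neg]
    abel

end

end Pool.Agent.BER.H70

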